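import Pool.Agent.TH220.MUB.Embed
import Pool.Agent.Helper378.Final

/-!
# MP_facb47_co: superlinear lower bounds for the chromatic number of touching graphs

`chi n` is the supremum of the chromatic numbers of the touching graphs of all sets of
nonoverlapping spheres of radius `1` in `ℝ^n`. We show `chi n ≥ n ^ (3 / 2) / 30` for every `n`, and
`chi n ≥ n ^ 2 / (131072 (log₂ n) ^ 2)` for `n ≥ 32`. The explicit packings behind the first bound
have `2 ^ (4 k + 4)` spheres in `ℝ^n`, `n ≥ 3 * 2 ^ (2 k + 1)`, and no independent set of their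
touching graph has more than `2 ^ (k + 1) + 2` vertices. The second bound uses a random subset of
the even half of the cube (`Pool.Agent.Helper378.Final.comb`).
-/

set_option autoImplicit false

namespace Pool.Agent.Results.MP_facb47_co.SuperlinearLowerBound

/-- `M` is the set of centres of a family of nonoverlapping spheres of radius `1`. -/
def IsPacking {n : ℕ} (M : Set (EuclideanSpace ℝ (Fin n))) : Prop :=
  ∀ x ∈ M, ∀ y ∈ M, x ≠ y → 2 ≤ dist x y

/-- The touching graph: two centres are adjacent when their distance is exactly `2`. -/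
def touching {n : ℕ} (M : Set (EuclideanSpace ℝ (Fin n))) : SimpleGraph M where
  Adj x y := dist (x : EuclideanSpace ℝ (Fin n)) (y : EuclideanSpace ℝ (Fin n)) = 2
  symm := ⟨fun x y h => by rw [dist_comm]; exact h⟩
  loopless := ⟨fun x h => by rw [dist_self] at h; norm_num at h⟩

/-- The supremum of the chromatic numbers of the touching graphs in `ℝ^n`. -/
noncomputable def chi (n : ℕ) : ℕ∞ :=
  ⨆ (M : Set (EuclideanSpace ℝ (Fin n))) (_ : IsPacking M), (touching M).chromaticNumber

/-- A packing with small independent sets needs many colours. -/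
lemma card_le {n m a : ℕ} (h : chi n ≤ m) (S : Finset (EuclideanSpace ℝ (Fin n)))
    (hS : IsPacking (S : Set (EuclideanSpace ℝ (Fin n))))
    (hind : ∀ A ⊆ S, (∀ x ∈ A, ∀ y ∈ A, x ≠ y → 2 < dist x y) → A.card ≤ a) :
    S.card ≤ m * a := by
  classical
  have h1 : (touching (S : Set (EuclideanSpace ℝ (Fin n)))).chromaticNumber ≤ m :=
    le_trans (le_iSup₂_of_le (S : Set (EuclideanSpace ℝ (Fin n))) hS le_rfl) h
  rw [SimpleGraph.chromaticNumber_le_iff_colorable] at h1
  obtain ⟨C⟩ := h1
  have h2 : ∀ c : Fin m, (S.attach.filter (fun x => C ⟨x.1, x.2⟩ = c)).card ≤ a := by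
    intro c
    have h3 := hind ((S.attach.filter (fun x => C ⟨x.1, x.2⟩ = c)).image Subtype.val) ?_ ?_
    · rwa [Finset.card_image_of_injective _ Subtype.val_injective] at h3
    · intro x hx
      obtain ⟨y, -, rfl⟩ := Finset.mem_image.1 hx
      exact y.2
    · intro x hx y hy hxy
      obtain ⟨x', hx', rfl⟩ := Finset.mem_image.1 hx
      obtain ⟨y', hy', rfl⟩ := Finset.mem_image.1 hy
      have hx2 := (Finset.mem_filter.1 hx').2
      have hy2 := (Finset.mem_filter.1 hy').2
      have h4 := hS x'.1 x'.2 y'.1 y'.2 hxy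
      refine lt_of_le_of_ne h4 (fun h5 => ?_)
      have h6 : (touching (S : Set (EuclideanSpace ℝ (Fin n)))).Adj ⟨x'.1, x'.2⟩ ⟨y'.1, y'.2⟩ :=
        h5.symm
      exact C.valid h6 (by rw [hx2, hy2])
  calc S.card = S.attach.card := Finset.card_attach.symm
    _ = ∑ c : Fin m, (S.attach.filter (fun x => C ⟨x.1, x.2⟩ = c)).card :=
        Finset.card_eq_sum_card_fiberwise (fun x _ => Finset.mem_univ _)
    _ ≤ ∑ _c : Fin m, a := Finset.sum_le_sum fun c _ => h2 c
    _ = m * a := by simp

lemma one_le {n m : ℕ} (h : chi n ≤ m) : 1 ≤ m := by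
  have h1 := card_le (a := 1) h {0} (by
    intro x hx y hy hxy
    simp only [Finset.coe_singleton, Set.mem_singleton_iff] at hx hy
    exact absurd (hx.trans hy.symm) hxy) (fun A hA _ => by
      simpa using Finset.card_le_card hA)
  simpa using h1

/-- The almost quadratic lower bound. -/
lemma almost_quadratic {n m : ℕ} (hn : 32 ≤ n) (h : chi n ≤ m) :
    (n : ℝ) ^ 2 / (131072 * Real.logb 2 n ^ 2) ≤ m := by
  classical
  set l := Nat.log 2 n with hl
  have hn0 : n ≠ 0 := by omega
  have hl5 : 5 ≤ l := by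
    rw [hl]; exact Nat.le_log_of_pow_le (by norm_num) (by norm_num; exact hn)
  have h2l : 2 ^ l ≤ n := Nat.pow_log_le_self 2 hn0
  have h2l' : n < 2 ^ (l + 1) := Nat.lt_pow_succ_log_self (by norm_num) n
  obtain ⟨E, X, hE1, hXV, hX2, hXcard, hXT⟩ := Pool.Agent.Helper378.Final.comb l hl5
  obtain ⟨f, hf⟩ := Pool.Agent.TH220.MUB.exists_isometry h2l
  let g : Finset (Fin (2 ^ l)) → EuclideanSpace ℝ (Fin n) :=
    fun x => (2 : ℝ) • f (Pool.Agent.Helper378.Final.pt x)
  have hg : ∀ x y, dist (g x) (g y) =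
      2 * dist (Pool.Agent.Helper378.Final.pt x) (Pool.Agent.Helper378.Final.pt y) := by
    intro x y
    change dist ((2 : ℝ) • f _) ((2 : ℝ) • f _) = _
    rw [dist_smul₀, hf.dist_eq]
    norm_num
  have hinj : Function.Injective g := by
    intro x y hxy
    have h1 : dist (g x) (g y) = 0 := by rw [hxy]; exact dist_self _
    rw [hg] at h1
    exact Pool.Agent.Helper378.Final.pt_inj (dist_eq_zero.1 (by linarith))
  have hpack : IsPacking ((X.image g : Finset _) : Set (EuclideanSpace ℝ (Fin n))) := by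
    intro a ha b hb hab
    obtain ⟨x, hx, rfl⟩ := Finset.mem_image.mp (Finset.mem_coe.1 ha)
    obtain ⟨y, hy, rfl⟩ := Finset.mem_image.mp (Finset.mem_coe.1 hb)
    have h1 : (1 : ℝ) ≤
        dist (Pool.Agent.Helper378.Final.pt x) (Pool.Agent.Helper378.Final.pt y) := by
      rw [Pool.Agent.Helper378.Final.dist_pt, Real.one_le_sqrt]
      have hne : x ≠ y := fun h => hab (by rw [h])
      have h0 : (symmDiff x y).card ≠ 0 := by
        intro h; rw [Finset.card_eq_zero] at h; exact hne (symmDiff_eq_bot.mp h)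
      have h2 : (symmDiff x y).card ≠ 2 := hX2 x hx y hy
      have he := Pool.Agent.Helper378.Cube.even_symmDiff
        (Pool.Agent.Helper378.Cube.mem_V.mp (hXV hx)) (Pool.Agent.Helper378.Cube.mem_V.mp (hXV hy))
      have h4 : 4 ≤ (symmDiff x y).card := by
        rw [Nat.even_iff] at he; omega
      have h4' : (4 : ℝ) ≤ ((symmDiff x y).card : ℝ) := by exact_mod_cast h4
      linarith
    rw [hg]; linarith
  have hc := card_le (a := 8192 * l ^ 2 * E) h (X.image g) hpack (by
    intro A hA hd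
    have h1 : (A.preimage g hinj.injOn).image g = A := by
      rw [Finset.image_preimage]
      refine Finset.filter_true_of_mem fun x hx => ?_
      obtain ⟨p, -, rfl⟩ := Finset.mem_image.1 (hA hx)
      exact ⟨p, rfl⟩
    rw [← h1, Finset.card_image_of_injective _ hinj]
    have h2 := hXT (A.preimage g hinj.injOn) (by
      intro x hx
      rw [Finset.mem_preimage] at hx
      obtain ⟨p, hp, hpx⟩ := Finset.mem_image.1 (hA hx)
      rwa [← hinj hpx]) (by
      intro v hv u hu h4
      unfold Pool.Agent.Helper378.Final.adj4 at h4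
      rw [Finset.mem_preimage] at hv hu
      have hne : v ≠ u := by
        intro h
        rw [h] at h4
        simp at h4
      have := hd _ hv _ hu (fun h => hne (hinj h))
      rw [hg, Pool.Agent.Helper378.Final.dist_pt, h4] at this
      norm_num at this)
    have h3 : ((A.preimage g hinj.injOn).card : ℝ) ≤ ((8192 * l ^ 2 * E : ℕ) : ℝ) := by
      push_cast; exact h2.le
    exact_mod_cast h3)
  rw [Finset.card_image_of_injective _ hinj] at hc
  have hc' : (X.card : ℝ) ≤ m * (8192 * (l : ℝ) ^ 2 * E) := by exact_mod_cast hc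
  have hE : (0 : ℝ) < E := by exact_mod_cast hE1
  have h1 : (2 ^ l : ℝ) ^ 2 ≤ m * (32768 * (l : ℝ) ^ 2) := by
    have h2 : (E : ℝ) * (2 ^ l : ℝ) ^ 2 / 4 ≤ m * (8192 * (l : ℝ) ^ 2 * E) := hXcard.trans hc'
    have h3 : (E : ℝ) * (2 ^ l : ℝ) ^ 2 ≤ E * (m * (32768 * (l : ℝ) ^ 2)) := by linarith
    exact le_of_mul_le_mul_left h3 hE
  have hlog : (l : ℝ) ≤ Real.logb 2 n := by
    rw [Real.le_logb_iff_rpow_le (by norm_num) (by positivity), Real.rpow_natCast]
    exact_mod_cast h2l
  have hl0 : (5 : ℝ) ≤ l := by exact_mod_cast hl5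
  have hnle : (n : ℝ) ≤ 2 * 2 ^ l := by
    have : (n : ℝ) < 2 ^ (l + 1) := by exact_mod_cast h2l'
    rw [pow_succ] at this; linarith
  have hlogpos : 0 < Real.logb 2 n := by linarith
  rw [div_le_iff₀ (by positivity)]
  calc (n : ℝ) ^ 2 ≤ (2 * 2 ^ l) ^ 2 := by gcongr
    _ = 4 * (2 ^ l : ℝ) ^ 2 := by ring
    _ ≤ 4 * (m * (32768 * (l : ℝ) ^ 2)) := by linarith
    _ = m * (131072 * (l : ℝ) ^ 2) := by ring
    _ ≤ m * (131072 * Real.logb 2 n ^ 2) := by gcongr

theorem result :
    -- `chi n ≥ n ^ (3 / 2) / 30` for every `n`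
    (∀ n m : ℕ, chi n ≤ m → (n : ℝ) ^ ((3 : ℝ) / 2) / 30 ≤ m) ∧
    -- `chi n ≥ n ^ 2 / (131072 (log₂ n) ^ 2)` for `n ≥ 32`
    (∀ n m : ℕ, 32 ≤ n → chi n ≤ m → (n : ℝ) ^ 2 / (131072 * Real.logb 2 n ^ 2) ≤ m) ∧
    -- the packings
    (∀ k n : ℕ, 3 * 2 ^ (2 * k + 1) ≤ n → ∃ M : Finset (EuclideanSpace ℝ (Fin n)),
      M.card = 2 ^ (4 * k + 4) ∧ IsPacking (M : Set (EuclideanSpace ℝ (Fin n))) ∧
      ∀ A ⊆ M, (∀ x ∈ A, ∀ y ∈ A, dist x y ≠ 2) → A.card ≤ 2 ^ (k + 1) + 2) := by
  refine ⟨?_, fun n m hn h => almost_quadratic hn h, ?_⟩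
  · intro n m h
    by_cases hn : n < 6
    · have h1 := one_le h
      have h2 : (n : ℝ) ^ ((3 : ℝ) / 2) ≤ 30 := by
        have h3 : (n : ℝ) ≤ 5 := by exact_mod_cast (by omega : n ≤ 5)
        calc (n : ℝ) ^ ((3 : ℝ) / 2) ≤ (5 : ℝ) ^ ((3 : ℝ) / 2) :=
              Real.rpow_le_rpow (by positivity) h3 (by norm_num)
          _ ≤ (5 : ℝ) ^ (2 : ℝ) := Real.rpow_le_rpow_of_exponent_le (by norm_num) (by norm_num)
          _ ≤ 30 := by norm_num
      have h4 : (1 : ℝ) ≤ m := by exact_mod_cast h1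
      linarith
    · push Not at hn
      -- choose `k` with `3 * 2 ^ (2 k + 1) ≤ n < 3 * 2 ^ (2 k + 3)`
      have hex : ∃ k, n < 3 * 2 ^ (2 * k + 3) := by
        refine ⟨n, ?_⟩
        have : n < 2 ^ n := Nat.lt_two_pow_self
        have h2 : 2 ^ n ≤ 2 ^ (2 * n + 3) := Nat.pow_le_pow_right (by norm_num) (by omega)
        omega
      classical
      set k := Nat.find hex with hk
      have hk1 : n < 3 * 2 ^ (2 * k + 3) := Nat.find_spec hex
      have hk2 : 3 * 2 ^ (2 * k + 1) ≤ n := by
        rcases Nat.eq_zero_or_pos k with h0 | h0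
        · rw [h0]; simpa using hn
        · have := Nat.find_min hex (m := k - 1) (by omega)
          push Not at this
          have e : 2 * (k - 1) + 3 = 2 * k + 1 := by omega
          rwa [e] at this
      obtain ⟨S, hS, hsep, hind⟩ := Pool.Agent.TH220.MUB.config2 k n hk2
      have h1 := card_le h S (fun x hx y hy hxy => hsep x hx y hy hxy) hind
      rw [hS] at h1
      have h2 : (2 : ℝ) ^ (4 * k + 4) ≤ m * (2 ^ (k + 1) + 2) := by exact_mod_cast h1
      set u : ℝ := 2 ^ k with hu
      have hu1 : 1 ≤ u := one_le_pow₀ (by norm_num)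
      have e1 : (2 : ℝ) ^ (4 * k + 4) = 16 * u ^ 4 := by
        rw [hu, ← pow_mul, pow_add, mul_comm k 4]; norm_num; ring
      have e2 : (2 : ℝ) ^ (k + 1) = 2 * u := by rw [hu]; ring
      rw [e1, e2] at h2
      -- `m ≥ 4 u ^ 3`
      have h3 : 4 * u ^ 3 ≤ m := by
        have h5 : 4 * u ^ 3 * (4 * u) ≤ m * (4 * u) := by
          have h6 : (m : ℝ) * (2 * u + 2) ≤ m * (4 * u) :=
            mul_le_mul_of_nonneg_left (by linarith) (by positivity)
          have e3 : 4 * u ^ 3 * (4 * u) = 16 * u ^ 4 := by ring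
          linarith
        exact le_of_mul_le_mul_right h5 (by positivity)
      -- `n < 24 u ^ 2`
      have h4 : (n : ℝ) ≤ 24 * u ^ 2 := by
        have h5 : (n : ℝ) < 3 * 2 ^ (2 * k + 3) := by exact_mod_cast hk1
        have e4 : (3 : ℝ) * 2 ^ (2 * k + 3) = 24 * u ^ 2 := by
          rw [hu, ← pow_mul, pow_add, mul_comm k 2]; norm_num; ring
        linarith
      have h5 : (n : ℝ) ^ ((3 : ℝ) / 2) ≤ 120 * u ^ 3 := by
        calc (n : ℝ) ^ ((3 : ℝ) / 2) ≤ (24 * u ^ 2) ^ ((3 : ℝ) / 2) :=
              Real.rpow_le_rpow (by positivity) h4 (by norm_num)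
          _ = 24 ^ ((3 : ℝ) / 2) * u ^ 3 := by
              rw [Real.mul_rpow (by norm_num) (by positivity), ← Real.rpow_natCast u 2,
                ← Real.rpow_mul (by positivity), ← Real.rpow_natCast u 3]
              norm_num
          _ ≤ 120 * u ^ 3 := by
              refine mul_le_mul_of_nonneg_right ?_ (by positivity)
              have h6 : (24 : ℝ) ^ ((3 : ℝ) / 2) = 24 * √24 := by
                rw [show (3 : ℝ) / 2 = 1 + 1 / 2 by norm_num, Real.rpow_add (by norm_num),
                  Real.rpow_one, Real.sqrt_eq_rpow]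
              rw [h6]
              have h7 : √24 ≤ 5 := by
                rw [Real.sqrt_le_left (by norm_num)]; norm_num
              linarith
      linarith
  · intro k n hkn
    obtain ⟨S, hS, hsep, hind⟩ := Pool.Agent.TH220.MUB.config2 k n hkn
    refine ⟨S, hS, fun x hx y hy hxy => hsep x hx y hy hxy, ?_⟩
    intro A hA hd
    refine hind A hA fun x hx y hy hxy => ?_
    exact lt_of_le_of_ne (hsep x (hA hx) y (hA hy) hxy) (fun h => hd x hx y hy h.symm)

end Pool.Agent.Results.MP_facb47_co.SuperlinearLowerBound
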